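import Mathlib

/-!
# Monochromatic packings in dense regular graphs can leave arbitrarily many vertices uncovered

The host graph is bipartite and regular of degree `p^2`, on `4 p^2 - 2 p` vertices (`p` a prime).
It consists of two disjoint copies of `K_{p^2, p^2 - p}` (coloured red) and of the point-line
incidence graph of the affine plane over `F_p` (non-vertical lines), which joins the two large
sides and is coloured blue.  The blue graph has no 4-cycle, so that every monochromatic `K_{t,t}`,
`t ≥ 2`, is red and uses as many vertices of a large side as of the corresponding small side.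
-/

set_option autoImplicit false

namespace Pool.Agent.Results.MP_b9e70b_co.BoundedLeftoverFails

open SimpleGraph

/-- `P` is a monochromatic `H`-packing in `G` under the edge colouring `χ`: its members are
pairwise vertex-disjoint subgraphs of `G`, each of them isomorphic to `H` and each of them with
all its edges of one colour (different members may have different colours). -/
def IsMonoPacking {W V : Type} (H : SimpleGraph W) (G : SimpleGraph V) {r : ℕ}
    (χ : G.edgeSet → Fin r) (P : Set G.Subgraph) : Prop :=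
  (∀ S ∈ P, Nonempty (H ≃g S.coe)) ∧
  (∀ S ∈ P, ∃ k : Fin r, ∀ e : G.edgeSet, (e : Sym2 V) ∈ S.edgeSet → χ e = k) ∧
  (∀ S ∈ P, ∀ T ∈ P, S ≠ T → Disjoint S.verts T.verts)

section construction

variable (p : ℕ) [Fact p.Prime]

/-- points, or lines, of the affine plane -/
abbrev Pt : Type := ZMod p × ZMod p

/-- the vertices: a large and a small side, twice -/
abbrev Vert : Type := (Pt p ⊕ Fin (p ^ 2 - p)) ⊕ (Pt p ⊕ Fin (p ^ 2 - p))

/-- adjacency of the host graph -/
def adj : Vert p → Vert p → Prop
  | .inl (.inl _), .inl (.inr _) => True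
  | .inl (.inr _), .inl (.inl _) => True
  | .inr (.inl _), .inr (.inr _) => True
  | .inr (.inr _), .inr (.inl _) => True
  | .inl (.inl a), .inr (.inl b) => a.2 = b.1 * a.1 + b.2
  | .inr (.inl b), .inl (.inl a) => a.2 = b.1 * a.1 + b.2
  | _, _ => False

instance : DecidableRel (adj p) := by
  rintro ((a | a) | (a | a)) ((b | b) | (b | b)) <;> unfold adj <;> infer_instance

/-- the host graph -/
def host : SimpleGraph (Vert p) where
  Adj := adj p
  symm := ⟨by rintro ((a | a) | (a | a)) ((b | b) | (b | b)) h <;> exact h⟩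
  loopless := ⟨by rintro ((a | a) | (a | a)) h <;> exact h⟩

instance : DecidableRel (host p).Adj := inferInstanceAs (DecidableRel (adj p))

omit [Fact p.Prime] in
lemma p_le : p ≤ p ^ 2 := Nat.le_self_pow (by norm_num) p

lemma degree_eq_sum (v : Vert p) :
    (host p).degree v = ∑ w : Vert p, if adj p v w then 1 else 0 := by
  classical
  rw [← card_neighborFinset_eq_degree, neighborFinset_eq_filter, Finset.card_filter]
  rfl

lemma sum_vert (f : Vert p → ℕ) :
    ∑ w : Vert p, f w = (∑ a, f (.inl (.inl a)) + ∑ b, f (.inl (.inr b))) +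
      (∑ a, f (.inr (.inl a)) + ∑ b, f (.inr (.inr b))) := by
  rw [Fintype.sum_sum_type, Fintype.sum_sum_type, Fintype.sum_sum_type]

theorem regular : (host p).IsRegularOfDegree (p ^ 2) := by
  have h1 := p_le p
  have hp : Fintype.card (Pt p) = p ^ 2 := by simp [ZMod.card, sq]
  intro v
  rw [degree_eq_sum, sum_vert]
  rcases v with (a | a) | (a | a)
  · have : ∑ b : Pt p, (if a.2 = b.1 * a.1 + b.2 then 1 else 0) = p := by
      rw [Fintype.sum_prod_type]
      have h2 : ∀ m : ZMod p, ∑ b : ZMod p, (if a.2 = m * a.1 + b then 1 else 0) = 1 := by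
        intro m
        rw [Finset.sum_eq_single (a.2 - m * a.1)]
        · simp
        · intro b _ hb
          rw [if_neg]
          intro h
          exact hb (by rw [h]; ring)
        · simp
      simp only [h2]
      simp [ZMod.card]
    simp only [adj, this, if_true, if_false, Finset.sum_const_zero, Finset.sum_const,
      Finset.card_univ, Fintype.card_fin, smul_eq_mul]
    omega
  · simp only [adj, if_true, if_false, Finset.sum_const_zero, Finset.sum_const,
      Finset.card_univ, hp, smul_eq_mul]
    omega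
  · have : ∑ b : Pt p, (if b.2 = a.1 * b.1 + a.2 then 1 else 0) = p := by
      rw [Fintype.sum_prod_type]
      have h2 : ∀ m : ZMod p, ∑ b : ZMod p, (if b = a.1 * m + a.2 then 1 else 0) = 1 := by
        intro m
        simp
      simp only [h2]
      simp [ZMod.card]
    simp only [adj, this, if_true, if_false, Finset.sum_const_zero, Finset.sum_const,
      Finset.card_univ, Fintype.card_fin, smul_eq_mul]
    omega
  · simp only [adj, if_true, if_false, Finset.sum_const_zero, Finset.sum_const,
      Finset.card_univ, hp, smul_eq_mul]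
    omega

lemma card_vert : Fintype.card (Vert p) = 4 * p ^ 2 - 2 * p := by
  have h1 := p_le p
  simp [ZMod.card]
  have : p * p = p ^ 2 := by ring
  omega

/-- is the vertex in the first group? -/
def grp : Vert p → Bool
  | .inl _ => true
  | .inr _ => false

/-- is the vertex on a large side? -/
def big : Vert p → Bool
  | .inl (.inl _) => true
  | .inl (.inr _) => false
  | .inr (.inl _) => true
  | .inr (.inr _) => false

/-- red edges join vertices of the same group, and then a large and a small side -/
lemma adj_same {u v : Vert p} (h : adj p u v) (hg : grp p u = grp p v) :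
    big p u = !big p v := by
  rcases u with (a | a) | (a | a) <;> rcases v with (b | b) | (b | b) <;>
    simp_all [adj, grp, big]

lemma alg {a a' b b' : Pt p} (h1 : a.2 = b.1 * a.1 + b.2) (h2 : a.2 = b'.1 * a.1 + b'.2)
    (h3 : a'.2 = b.1 * a'.1 + b.2) (h4 : a'.2 = b'.1 * a'.1 + b'.2) : a = a' ∨ b = b' := by
  have h5 : (a.1 - a'.1) * (b.1 - b'.1) = 0 := by linear_combination -h1 + h2 + h3 - h4
  rcases mul_eq_zero.mp h5 with h | h
  · left
    have h6 : a.1 = a'.1 := sub_eq_zero.mp h
    refine Prod.ext h6 ?_
    rw [h1, h3, h6]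
  · right
    have h6 : b.1 = b'.1 := sub_eq_zero.mp h
    refine Prod.ext h6 ?_
    rw [h6] at h1
    exact add_left_cancel (h1.symm.trans h2)

/-- two vertices have at most one common neighbour in the other group -/
lemma no_blue_c4 {x x' y y' : Vert p} (h1 : adj p x y) (h2 : adj p x y') (h3 : adj p x' y)
    (h4 : adj p x' y') (g1 : grp p x ≠ grp p y) (g2 : grp p x ≠ grp p y')
    (g3 : grp p x' ≠ grp p y) (g4 : grp p x' ≠ grp p y') : x = x' ∨ y = y' := by
  rcases x with (a | a) | (a | a) <;> rcases y with (b | b) | (b | b) <;>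
  first
    | exact h1.elim
    | exact absurd rfl g1
    | skip
  · rcases x' with (a' | a') | (a' | a') <;> rcases y' with (b' | b') | (b' | b') <;>
    first
      | exact h2.elim
      | exact h3.elim
      | exact h4.elim
      | exact absurd rfl g2
      | exact absurd rfl g3
      | exact absurd rfl g4
      | (rcases alg p h1 h2 h3 h4 with h | h
         · exact Or.inl (by rw [h])
         · exact Or.inr (by rw [h]))
  · rcases x' with (a' | a') | (a' | a') <;> rcases y' with (b' | b') | (b' | b') <;>
    first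
      | exact h2.elim
      | exact h3.elim
      | exact h4.elim
      | exact absurd rfl g2
      | exact absurd rfl g3
      | exact absurd rfl g4
      | (rcases alg p h1 h3 h2 h4 with h | h
         · exact Or.inr (by rw [h])
         · exact Or.inl (by rw [h]))

/-- the colour of a pair: `0` (red) inside a group and `1` (blue) between the groups -/
def col (r : ℕ) (hr : 2 ≤ r) : Sym2 (Vert p) → Fin r :=
  Sym2.lift ⟨fun u v => if grp p u = grp p v then ⟨0, by omega⟩ else ⟨1, by omega⟩, by
    intro u v
    simp only [eq_comm]⟩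

omit [Fact p.Prime] in
lemma col_eq {r : ℕ} (hr : 2 ≤ r) {u v u' v' : Vert p}
    (h : col p r hr s(u, v) = col p r hr s(u', v')) (h1 : grp p u ≠ grp p v) :
    grp p u' ≠ grp p v' := by
  intro h2
  simp only [col, Sym2.lift_mk, if_neg h1, if_pos h2] at h
  exact absurd (Fin.mk.inj_iff.mp h) (by norm_num)

/-- in a monochromatic copy of `K_{t,t}` there is a fixed point free involution which preserves the
group and exchanges the large and the small side -/
lemma exists_partner {t r : ℕ} (ht : 2 ≤ t) (hr : 2 ≤ r) (S : (host p).Subgraph)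
    (hS : Nonempty (completeBipartiteGraph (Fin t) (Fin t) ≃g S.coe))
    (hm : ∃ k : Fin r, ∀ e : (host p).edgeSet, (e : Sym2 (Vert p)) ∈ S.edgeSet →
      col p r hr e = k) :
    ∃ g : Vert p → Vert p, ∀ v ∈ S.verts, g v ∈ S.verts ∧ grp p (g v) = grp p v ∧
      big p (g v) = !big p v ∧ g (g v) = v := by
  classical
  obtain ⟨f⟩ := hS
  obtain ⟨k, hk⟩ := hm
  have hadj : ∀ i j : Fin t, S.Adj (f (Sum.inl i)) (f (Sum.inr j)) := by
    intro i j
    have h1 : (completeBipartiteGraph (Fin t) (Fin t)).Adj (Sum.inl i) (Sum.inr j) := by simp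
    exact f.map_rel_iff.mpr h1
  have hcol : ∀ i j : Fin t, col p r hr s((f (Sum.inl i) : Vert p), f (Sum.inr j)) = k := by
    intro i j
    exact hk ⟨_, (hadj i j).adj_sub⟩ (hadj i j)
  have hsame : ∀ i j : Fin t, grp p (f (Sum.inl i)) = grp p (f (Sum.inr j)) := by
    by_contra hcon
    push Not at hcon
    obtain ⟨i, j, hij⟩ := hcon
    have hall : ∀ i' j' : Fin t, grp p (f (Sum.inl i')) ≠ grp p (f (Sum.inr j')) :=
      fun i' j' => col_eq p hr ((hcol i j).trans (hcol i' j').symm) hij
    have a0 : Fin t := ⟨0, by omega⟩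
    rcases no_blue_c4 p (hadj ⟨0, by omega⟩ ⟨0, by omega⟩).adj_sub
      (hadj ⟨0, by omega⟩ ⟨1, by omega⟩).adj_sub (hadj ⟨1, by omega⟩ ⟨0, by omega⟩).adj_sub
      (hadj ⟨1, by omega⟩ ⟨1, by omega⟩).adj_sub (hall _ _) (hall _ _) (hall _ _) (hall _ _)
      with h | h
    · have h1 := f.injective (Subtype.ext h)
      simp at h1
    · have h1 := f.injective (Subtype.ext h)
      simp at h1
  have hbig : ∀ i j : Fin t, big p (f (Sum.inl i)) = !big p (f (Sum.inr j)) :=
    fun i j => adj_same p (hadj i j).adj_sub (hsame i j)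
  refine ⟨fun v => if h : v ∈ S.verts then (f (Sum.swap (f.symm ⟨v, h⟩)) : Vert p) else v, ?_⟩
  intro v hv
  have h1 : (f (Sum.swap (f.symm ⟨v, hv⟩)) : Vert p) ∈ S.verts := Subtype.coe_prop _
  have h2 : ∀ z, f z = ⟨v, hv⟩ → grp p (f (Sum.swap z)) = grp p v ∧
      big p (f (Sum.swap z)) = !big p v := by
    rintro (i | i) hz
    · have h3 : (f (Sum.inl i) : Vert p) = v := congrArg Subtype.val hz
      refine ⟨?_, ?_⟩
      · rw [← h3]; exact (hsame i i).symm
      · rw [← h3, hbig i i]; simp
    · have h3 : (f (Sum.inr i) : Vert p) = v := congrArg Subtype.val hz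
      refine ⟨?_, ?_⟩
      · rw [← h3]; exact hsame i i
      · rw [← h3]; exact hbig i i
  obtain ⟨h3, h4⟩ := h2 (f.symm ⟨v, hv⟩) (by simp)
  refine ⟨?_, ?_, ?_, ?_⟩
  · simp only [dif_pos hv]; exact h1
  · simp only [dif_pos hv]; exact h3
  · simp only [dif_pos hv]; exact h4
  · simp only [dif_pos hv, dif_pos h1]
    simp

/-- every monochromatic `K_{t,t}`-packing misses at least `p` vertices -/
theorem uncovered_large {t r : ℕ} (ht : 2 ≤ t) (hr : 2 ≤ r) (P : Set (host p).Subgraph)
    (hP : IsMonoPacking (completeBipartiteGraph (Fin t) (Fin t)) (host p)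
      (fun e : (host p).edgeSet => col p r hr e) P) :
    p ≤ ((⋃ S ∈ P, S.verts)ᶜ).ncard := by
  classical
  obtain ⟨h1, h2, h3⟩ := hP
  have h4 : ∀ S ∈ P, ∃ g : Vert p → Vert p, ∀ v ∈ S.verts, g v ∈ S.verts ∧
      grp p (g v) = grp p v ∧ big p (g v) = !big p v ∧ g (g v) = v :=
    fun S hS => exists_partner p ht hr S (h1 S hS) (h2 S hS)
  choose! part hpart using h4
  set U : Set (Vert p) := ⋃ S ∈ P, S.verts with hU
  have hmem : ∀ v, v ∈ U → ∃ S, S ∈ P ∧ v ∈ S.verts := by
    intro v hv
    simpa [hU] using hv
  choose! sel hsel using hmem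
  set g : Vert p → Vert p := fun v => part (sel v) v with hg
  have hinv : ∀ v ∈ U, grp p (g v) = grp p v ∧ big p (g v) = !big p v ∧ g (g v) = v := by
    intro v hv
    obtain ⟨h5, h6⟩ := hsel v hv
    obtain ⟨h7, h8, h9, h10⟩ := hpart (sel v) h5 v h6
    refine ⟨h8, h9, ?_⟩
    have h11 : g v ∈ U := by
      simp only [hU, Set.mem_iUnion]
      exact ⟨sel v, h5, h7⟩
    obtain ⟨h12, h13⟩ := hsel (g v) h11
    have h14 : sel (g v) = sel v := by
      by_contra hne
      exact Set.disjoint_left.mp (h3 _ h12 _ h5 hne) h13 h7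
    show part (sel (g v)) (g v) = v
    rw [h14]
    exact h10
  -- the large side of the first group
  set A : Set (Vert p) := Set.range (fun a : Pt p => (Sum.inl (Sum.inl a) : Vert p)) with hA
  set B : Set (Vert p) := Set.range (fun b : Fin (p ^ 2 - p) => (Sum.inl (Sum.inr b) : Vert p))
    with hB
  have hAc : A.ncard = p ^ 2 := by
    rw [hA, ← Set.image_univ, Set.ncard_image_of_injective _ (fun a b h => by simpa using h),
      Set.ncard_univ]
    simp [Nat.card_eq_fintype_card, ZMod.card, sq]
  have hBc : B.ncard = p ^ 2 - p := by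
    rw [hB, ← Set.image_univ, Set.ncard_image_of_injective _ (fun a b h => by simpa using h),
      Set.ncard_univ]
    simp
  have hAB : (U ∩ A).ncard ≤ B.ncard := by
    refine Set.ncard_le_ncard_of_injOn g ?_ ?_ (Set.toFinite _)
    · rintro v ⟨hv, a, rfl⟩
      obtain ⟨h5, h6, -⟩ := hinv _ hv
      rcases hgv : g (Sum.inl (Sum.inl a)) with (b | b) | (b | b)
      · rw [hgv] at h6; simp [big] at h6
      · exact ⟨b, rfl⟩
      · rw [hgv] at h5; simp [grp] at h5
      · rw [hgv] at h5; simp [grp] at h5
    · intro v hv w hw hvw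
      rw [← (hinv v hv.1).2.2, ← (hinv w hw.1).2.2, hvw]
  have h15 : (A \ U).ncard + (U ∩ A).ncard = A.ncard := by
    rw [Set.inter_comm, add_comm]
    exact Set.ncard_inter_add_ncard_sdiff_eq_ncard A U (Set.toFinite _)
  have h16 : (A \ U).ncard ≤ Uᶜ.ncard :=
    Set.ncard_le_ncard (fun v hv => hv.2) (Set.toFinite _)
  have h17 := p_le p
  omega

end construction

/-- **Monochromatic packings of balanced complete bipartite graphs can leave arbitrarily many
vertices uncovered, already in regular graphs of degree at least `n / 4`.**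

For every `t ≥ 2`, every number `r ≥ 2` of colours, every real `c ≤ 1/4` and every constant `C`
there are a graph `G` on a finite vertex set `V` which is `d`-regular with `d ≥ c |V|` and an edge
colouring of `G` with `r` colours such that every monochromatic `K_{t,t}`-packing of `G` leaves
more than `C` vertices of `G` uncovered. -/
theorem result (t : ℕ) (ht : 2 ≤ t) (r : ℕ) (hr : 2 ≤ r) (c : ℝ) (hc : c ≤ 1 / 4) (C : ℝ) :
    ∃ (V : Type) (_ : Fintype V) (G : SimpleGraph V) (_ : DecidableRel G.Adj) (d : ℕ),
      G.IsRegularOfDegree d ∧ c * Fintype.card V ≤ d ∧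
      ∃ χ : G.edgeSet → Fin r, ∀ P : Set G.Subgraph,
        IsMonoPacking (completeBipartiteGraph (Fin t) (Fin t)) G χ P →
          C < ((⋃ S ∈ P, S.verts)ᶜ).ncard := by
  obtain ⟨q, hq⟩ := exists_nat_gt C
  obtain ⟨p, hp1, hp2⟩ := Nat.exists_infinite_primes q
  have : Fact p.Prime := ⟨hp2⟩
  refine ⟨Vert p, inferInstance, host p, inferInstance, p ^ 2, regular p, ?_,
    fun e => col p r hr e, ?_⟩
  · rw [card_vert]
    have h1 : ((4 * p ^ 2 - 2 * p : ℕ) : ℝ) ≤ 4 * (p : ℝ) ^ 2 := by
      have : 4 * p ^ 2 - 2 * p ≤ 4 * p ^ 2 := Nat.sub_le _ _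
      exact_mod_cast this
    have h2 : (0 : ℝ) ≤ ((4 * p ^ 2 - 2 * p : ℕ) : ℝ) := Nat.cast_nonneg _
    push_cast
    nlinarith
  · intro P hP
    have h1 := uncovered_large p ht hr P hP
    calc C < q := hq
      _ ≤ p := by exact_mod_cast hp1
      _ ≤ _ := by exact_mod_cast h1

end Pool.Agent.Results.MP_b9e70b_co.BoundedLeftoverFails
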